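import Mathlib
import Pool.Agent.X61.CU.Ent

set_option autoImplicit false

/-!
# Entropy of the parity words of a cycle against its oscillation

Let `h, κ ≥ 0` and `h (1 + 13 κ) < 1`. Only finitely many cycles `Z` of the `3x+1` map on the integers
have at most `C 2 ^ (h n)` parity words of length `n`, for every `n`, and elements which all satisfy
`|x| ≤ C |y| ^ κ`. In particular, for a given subexponential bound for the number of parity words only
finitely many cycles have polynomially bounded oscillation.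
-/

namespace Pool.Agent.Results.MP_edb5be_nt.EntropyAgainstOscillation

/-- The 3x+1 map on the integers. -/
def T (x : ℤ) : ℤ := if x % 2 = 0 then x / 2 else (3 * x + 1) / 2

/-- `Z` is a cycle of `T`. -/
def IsCycle (Z : Finset ℤ) : Prop :=
  ∃ (x : ℤ) (p : ℕ), 1 ≤ p ∧ T^[p] x = x ∧ Z = (Finset.range p).image fun i => T^[i] x

/-- The parity words of length `n` which can be read along `Z`. -/
def words (Z : Finset ℤ) (n : ℕ) : Finset (Fin n → ℤ) :=
  Z.image fun x => fun j : Fin n => T^[(j : ℕ)] x % 2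

/-- **Theorem.** (1) Let `0 ≤ h < 1` and `C` be real numbers. There is `A` such that for every cycle
`Z ≠ {0}` of the 3x+1 map on the integers along which at most `C * 2 ^ (h * n)` different parity words
of length `n` can be read, for every `n`, there are elements `x`, `y` of `Z` with
`|x| ^ (1 - h) ≤ A |Z| ^ 13` and `|Z| ≤ A |y| ^ h`.

(2) Let `h, κ ≥ 0` with `h * (1 + 13 * κ) < 1` and let `C` be a real number. Only finitely many cycles
`Z` satisfy: at most `C * 2 ^ (h * n)` different parity words of length `n` can be read along `Z`, for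
every `n`, and `|x| ≤ C * |y| ^ κ` for all elements `x`, `y` of `Z`.

(3) Let `f` be a function with `f n ≤ C 2 ^ (h n)` for every `h > 0`, with a constant `C` depending on
`h`. For all `κ` and `C` only finitely many cycles `Z` satisfy: at most `f n` different parity words of
length `n` can be read along `Z`, for every `n`, and `|x| ≤ C * |y| ^ κ` for all elements `x`, `y`. -/
theorem result :
    (∀ h C : ℝ, 0 ≤ h → h < 1 → ∃ A : ℝ, ∀ Z : Finset ℤ, IsCycle Z → Z ≠ {0} →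
      (∀ n : ℕ, ((words Z n).card : ℝ) ≤ C * 2 ^ (h * n)) →
      (∃ x ∈ Z, |(x : ℝ)| ^ (1 - h) ≤ A * (Z.card : ℝ) ^ 13) ∧
      ∃ y ∈ Z, (Z.card : ℝ) ≤ A * |(y : ℝ)| ^ h) ∧
    (∀ h κ C : ℝ, 0 ≤ h → 0 ≤ κ → h * (1 + 13 * κ) < 1 →
      {Z : Finset ℤ | IsCycle Z ∧ (∀ n : ℕ, ((words Z n).card : ℝ) ≤ C * 2 ^ (h * n)) ∧
        ∀ x ∈ Z, ∀ y ∈ Z, |(x : ℝ)| ≤ C * |(y : ℝ)| ^ κ}.Finite) ∧
    ∀ f : ℕ → ℝ, (∀ h : ℝ, 0 < h → ∃ C : ℝ, ∀ n : ℕ, f n ≤ C * 2 ^ (h * n)) → ∀ κ C : ℝ,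
      {Z : Finset ℤ | IsCycle Z ∧ (∀ n : ℕ, ((words Z n).card : ℝ) ≤ f n) ∧
        ∀ x ∈ Z, ∀ y ∈ Z, |(x : ℝ)| ≤ C * |(y : ℝ)| ^ κ}.Finite := by
  refine ⟨fun h C hh hh1 => ?_, ?_⟩
  · obtain ⟨A, hA, hlen⟩ := Pool.Agent.X61.CU.lengths h (max C 0) hh hh1 (le_max_right _ _)
    refine ⟨A, fun Z hZ hZ0 hw => ?_⟩
    have h1 : ∀ x ∈ Z, (1 : ℝ) ≤ |(x : ℝ)| := by
      intro x hx
      have hx0 : x ≠ 0 := by
        rintro rfl
        apply hZ0
        refine Pool.Agent.X61.CU.IsCycle.eq_of_mem hZ ⟨0, 1, le_rfl, rfl, rfl⟩ hx ?_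
        simp
      have h2 : (1 : ℤ) ≤ |x| := Int.one_le_abs hx0
      exact_mod_cast h2
    obtain ⟨h2, h3⟩ := hlen Z hZ h1 fun n => (hw n).trans
      (mul_le_mul_of_nonneg_right (le_max_left _ _) (by positivity))
    obtain ⟨x0, p, hp, _, hZ'⟩ := hZ
    have hne : Z.Nonempty := by
      rw [hZ']
      exact ⟨x0, Finset.mem_image.2 ⟨0, Finset.mem_range.2 hp, rfl⟩⟩
    obtain ⟨m, hm, hmin⟩ := Finset.exists_min_image Z (fun x => |(x : ℝ)|) hne
    obtain ⟨M, hM, hmax⟩ := Finset.exists_max_image Z (fun x => |(x : ℝ)|) hne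
    exact ⟨⟨m, hm, h2 _ (h1 m hm) hmin⟩, ⟨M, hM, h3 _ (h1 M hM) hmax⟩⟩
  refine ⟨fun h κ C hh hκ hhκ => Pool.Agent.X61.CU.entropy h κ C hh hκ hhκ, fun f hf κ C => ?_⟩
  set κ' : ℝ := max κ 1 with hκ'
  have hκ1 : 1 ≤ κ' := le_max_right _ _
  set h : ℝ := 1 / (2 * (1 + 13 * κ')) with hh
  have hpos : 0 < 1 + 13 * κ' := by positivity
  have hh0 : 0 < h := by positivity
  have hhκ : h * (1 + 13 * κ') < 1 := by
    have : h * (1 + 13 * κ') = 1 / 2 := by
      rw [hh]
      field_simp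
    rw [this]
    norm_num
  obtain ⟨C0, hC0⟩ := hf h hh0
  set C1 : ℝ := max (max C C0) 0 with hC1
  refine ((Pool.Agent.X61.CU.entropy h κ' C1 hh0.le (by linarith) hhκ).union
    (Pool.Agent.X61.CU.finite_small 0)).subset ?_
  rintro Z ⟨hZ, hw, hosc⟩
  by_cases h0 : ∃ x ∈ Z, |x| ≤ ((0 : ℕ) : ℤ)
  · exact Or.inr ⟨hZ, h0⟩
  · refine Or.inl ⟨hZ, fun n => ?_, fun x hx y hy => ?_⟩
    · refine (hw n).trans ((hC0 n).trans ?_)
      exact mul_le_mul_of_nonneg_right ((le_max_right _ _).trans (le_max_left _ _)) (by positivity)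
    · push Not at h0
      have hy1 : (1 : ℝ) ≤ |(y : ℝ)| := by
        have h1 := h0 y hy
        have h2 : (1 : ℤ) ≤ |y| := by
          have : (0 : ℤ) < |y| := by exact_mod_cast h1
          omega
        exact_mod_cast h2
      refine (hosc x hx y hy).trans ?_
      calc C * |(y : ℝ)| ^ κ ≤ C1 * |(y : ℝ)| ^ κ :=
            mul_le_mul_of_nonneg_right ((le_max_left _ _).trans (le_max_left _ _)) (by positivity)
        _ ≤ C1 * |(y : ℝ)| ^ κ' :=
            mul_le_mul_of_nonneg_left (Real.rpow_le_rpow_of_exponent_le hy1 (le_max_left _ _))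
              (le_max_right _ _)

end Pool.Agent.Results.MP_edb5be_nt.EntropyAgainstOscillation
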