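import Mathlib
import Pool.Agent.X61.CU.SPart

set_option autoImplicit false

/-!
# The smooth part of a cycle of the 3x+1 map is small

Let `S` be a finite set of primes and `ε > 0`. On all but finitely many cycles `Z` of the `3x+1` map on
the integers, the part composed of primes in `S` of the product of the odd elements of `Z` is at most
the `ε`-th power of the product of all elements. If the rational number `r` is not fixed by any
composition of the two branches `z / 2` and `(3 z + 1) / 2`, the same holds for the product of the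
numbers `x - r`, multiplied by the denominator of `r`, over all elements `x` of `Z`.
-/

namespace Pool.Agent.Results.MP_edb5be_nt.SmoothPart

/-- The 3x+1 map on the integers. -/
def T (x : ℤ) : ℤ := if x % 2 = 0 then x / 2 else (3 * x + 1) / 2

/-- `Z` is a cycle of `T`. -/
def IsCycle (Z : Finset ℤ) : Prop :=
  ∃ (x : ℤ) (p : ℕ), 1 ≤ p ∧ T^[p] x = x ∧ Z = (Finset.range p).image fun i => T^[i] x

/-- The largest divisor of the nonzero integer `n` all of whose prime factors are in `S`; the value
is `1` for `n = 0`. -/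
def smoothPart (S : Finset ℕ) (n : ℤ) : ℕ := ∏ p ∈ S, p ^ padicValNat p n.natAbs

/-- The two branches `z / 2` and `(3 z + 1) / 2` of the 3x+1 map, on the rational numbers. -/
def branch (z : ℚ) (odd : Bool) : ℚ := if odd then (3 * z + 1) / 2 else z / 2

/-- the product version follows from the version with logarithms -/
theorem of_log {f : ℤ → ℕ} (hf : ∀ x, 0 < f x) (P : ℤ → Prop) [DecidablePred P] (ε : ℝ)
    (h : {Z : Finset ℤ | Pool.Agent.X61.CU.IsCycle Z ∧ ε * ∑ x ∈ Z, Real.log |(x : ℝ)| <
      ∑ x ∈ Z, if P x then 0 else Real.log (f x)}.Finite) :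
    {Z : Finset ℤ | IsCycle Z ∧ (∏ x ∈ Z, |(x : ℝ)|) ^ ε <
      ∏ x ∈ Z.filter (fun x => ¬ P x), (f x : ℝ)}.Finite := by
  refine (h.union (Pool.Agent.X61.CU.finite_small 0)).subset ?_
  rintro Z ⟨hZ, hlt⟩
  by_cases h0 : ∃ x ∈ Z, |x| ≤ ((0 : ℕ) : ℤ)
  · exact Or.inr ⟨hZ, h0⟩
  · refine Or.inl ⟨hZ, ?_⟩
    push Not at h0
    have hpos : ∀ x ∈ Z, (0 : ℝ) < |(x : ℝ)| := by
      intro x hx
      have h1 := h0 x hx
      have h2 : (0 : ℤ) < |x| := by exact_mod_cast h1
      exact_mod_cast h2
    have hP : 0 < ∏ x ∈ Z, |(x : ℝ)| := Finset.prod_pos hpos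
    have h1 := Real.log_lt_log (Real.rpow_pos_of_pos hP ε) hlt
    rw [Real.log_rpow hP, Real.log_prod fun x hx => (hpos x hx).ne',
      Real.log_prod fun x _ => by exact_mod_cast (hf x).ne'] at h1
    refine lt_of_lt_of_eq h1 ?_
    rw [Finset.sum_filter]
    refine Finset.sum_congr rfl fun x _ => ?_
    by_cases h2 : P x
    · rw [if_pos h2, if_neg (not_not.2 h2)]
    · rw [if_neg h2, if_pos h2]

theorem fold_form (w : List Bool) : ∃ u c : ℕ, (u = 0 → c = 0) ∧ (u ≠ 0 → ¬ 3 ∣ c) ∧
    ∀ z : ℚ, w.foldl branch z = (3 ^ u * z + c) / 2 ^ w.length := by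
  induction w with
  | nil => exact ⟨0, 0, fun _ => rfl, fun h => absurd rfl h, fun z => by simp⟩
  | cons b w ih =>
    obtain ⟨u, c, h1, h2, h3⟩ := ih
    cases b with
    | false =>
      refine ⟨u, 2 * c, fun h => by rw [h1 h], fun h h4 => h2 h (by omega), fun z => ?_⟩
      rw [List.foldl_cons, h3, List.length_cons, pow_succ]
      unfold branch
      rw [if_neg (by decide)]
      push_cast
      field_simp
    | true =>
      refine ⟨u + 1, 3 ^ u + 2 * c, fun h => absurd h (Nat.succ_ne_zero u), fun _ h4 => ?_,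
        fun z => ?_⟩
      · by_cases hu : u = 0
        · rw [hu, h1 hu] at h4
          omega
        · have h5 : 3 ∣ 3 ^ u := dvd_pow_self 3 hu
          exact h2 hu (by omega)
      · rw [List.foldl_cons, h3, List.length_cons, pow_succ, pow_succ]
        unfold branch
        rw [if_pos rfl]
        push_cast
        field_simp
        ring

/-- simple cases in which `r` is not fixed by a composition of the branches -/
theorem not_fixed {r : ℚ} (h : 2 ∣ r.den ∨ 3 ∣ r.den ∨ r.num ≠ 0 ∧ 3 ∣ r.num) (w : List Bool)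
    (hw : w ≠ []) : w.foldl branch r ≠ r := by
  intro hr
  obtain ⟨u, c, h1, h2, h3⟩ := fold_form w
  rw [h3 r] at hr
  have hn : w.length ≠ 0 := fun h0 => hw (List.length_eq_zero_iff.1 h0)
  have hd : (r.den : ℚ) ≠ 0 := by exact_mod_cast r.den_nz
  have e1 : r * ((2 : ℚ) ^ w.length - 3 ^ u) = c := by
    have h5 : (2 : ℚ) ^ w.length ≠ 0 := by positivity
    rw [div_eq_iff h5] at hr
    linarith
  have e2 : (r.num : ℤ) * ((2 : ℤ) ^ w.length - 3 ^ u) = c * r.den := by
    have h6 : ((r.num : ℤ) : ℚ) = r * r.den := (Rat.mul_den_eq_num r).symm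
    have h7 : ((r.num : ℤ) : ℚ) * ((2 : ℚ) ^ w.length - 3 ^ u) = c * r.den := by
      rw [h6, ← e1]
      ring
    exact_mod_cast h7
  have hcop : Int.gcd r.num r.den = 1 := by
    have := r.reduced
    rwa [Nat.Coprime] at this
  have two_n : (2 : ℤ) ∣ 2 ^ w.length := dvd_pow_self 2 hn
  have three2 : ¬ (3 : ℤ) ∣ 2 ^ w.length := by
    intro h8
    have h9 := Int.prime_three.dvd_of_dvd_pow h8
    omega
  have two3 : ¬ (2 : ℤ) ∣ 3 ^ u := by
    intro h8
    have h9 := Int.prime_two.dvd_of_dvd_pow h8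
    omega
  have zero_case : u = 0 → r.num ≠ 0 → False := by
    intro hu hnum
    rw [h1 hu, hu, pow_zero, Nat.cast_zero, zero_mul] at e2
    rcases mul_eq_zero.1 e2 with h8 | h8
    · exact hnum h8
    · omega
  have nd : ∀ q : ℤ, 1 < q → q ∣ r.num → q ∣ (r.den : ℤ) → False := by
    intro q hq h8 h9
    have h10 := Int.dvd_coe_gcd h8 h9
    rw [hcop] at h10
    have := Int.le_of_dvd one_pos h10
    omega
  rcases h with h | h | ⟨h, h'⟩
  · have h8 : (2 : ℤ) ∣ r.den := by exact_mod_cast h
    have h9 : (2 : ℤ) ∣ r.num * ((2 : ℤ) ^ w.length - 3 ^ u) := by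
      rw [e2]
      exact Dvd.dvd.mul_left h8 _
    rcases Int.prime_two.dvd_or_dvd h9 with h10 | h10
    · exact nd 2 (by norm_num) h10 h8
    · exact two3 ((dvd_sub_right two_n).1 h10)
  · have h8 : (3 : ℤ) ∣ r.den := by exact_mod_cast h
    have h9 : (3 : ℤ) ∣ r.num * ((2 : ℤ) ^ w.length - 3 ^ u) := by
      rw [e2]
      exact Dvd.dvd.mul_left h8 _
    have hnum : r.num ≠ 0 := by
      intro h0
      exact nd 3 (by norm_num) (by rw [h0]; exact dvd_zero _) h8
    rcases Int.prime_three.dvd_or_dvd h9 with h10 | h10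
    · exact nd 3 (by norm_num) h10 h8
    · by_cases hu : u = 0
      · exact zero_case hu hnum
      · have h11 : (3 : ℤ) ∣ 3 ^ u := dvd_pow_self 3 hu
        exact three2 ((dvd_sub_left h11).1 h10)
  · have h9 : (3 : ℤ) ∣ c * r.den := by
      rw [← e2]
      exact Dvd.dvd.mul_right h' _
    rcases Int.prime_three.dvd_or_dvd h9 with h10 | h10
    · by_cases hu : u = 0
      · exact zero_case hu h
      · exact h2 hu (by exact_mod_cast h10)
    · exact nd 3 (by norm_num) h' h10

/-- **Theorem.** Let `S` be a finite set of primes and `ε > 0`.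

(1) For all but finitely many cycles `Z` of the 3x+1 map on the integers, the part composed of primes
in `S` of the product of the odd elements is at most `(∏ x ∈ Z, |x|) ^ ε`.

(2) Let `r` be a rational number which is not fixed by any nonempty composition of the two branches;
this is the case if the denominator of `r` is divisible by `2` or by `3`, or if the numerator of `r` is
nonzero and divisible by `3`. For all but finitely many cycles `Z` the part composed of primes in `S` of the product of the integers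
`r.den * x - r.num`, over all elements `x` of `Z`, is at most `(∏ x ∈ Z, |x|) ^ ε`. -/
theorem result (S : Finset ℕ) (hS : ∀ p ∈ S, p.Prime) (ε : ℝ) (hε : 0 < ε) :
    {Z : Finset ℤ | IsCycle Z ∧ (∏ x ∈ Z, |(x : ℝ)|) ^ ε <
      ∏ x ∈ Z.filter (fun x => x % 2 = 1), (smoothPart S x : ℝ)}.Finite ∧
    ∀ r : ℚ, ((∀ w : List Bool, w ≠ [] → w.foldl branch r ≠ r) ∨
        2 ∣ r.den ∨ 3 ∣ r.den ∨ r.num ≠ 0 ∧ 3 ∣ r.num) →
      {Z : Finset ℤ | IsCycle Z ∧ (∏ x ∈ Z, |(x : ℝ)|) ^ ε <
        ∏ x ∈ Z, (smoothPart S (r.den * x - r.num) : ℝ)}.Finite := by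
  refine ⟨?_, fun r hr => ?_⟩
  · have h1 := of_log (f := smoothPart S) (fun x => Pool.Agent.X61.CU.part_pos hS x)
      (fun x => x % 2 = 0) ε (Pool.Agent.X61.CU.spart_odd S hS ε hε)
    refine h1.subset ?_
    rintro Z ⟨hZ, hlt⟩
    refine ⟨hZ, lt_of_lt_of_eq hlt ?_⟩
    refine Finset.prod_congr (Finset.filter_congr fun x _ => ?_) fun _ _ => rfl
    omega
  · replace hr : ∀ w : List Bool, w ≠ [] → w.foldl branch r ≠ r :=
      hr.elim id fun h w hw => not_fixed h w hw
    have hq : (r.den : ℤ) ≠ 0 := by exact_mod_cast r.den_nz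
    have hrr : ((r.num : ℤ) : ℚ) / ((r.den : ℤ) : ℚ) = r := by
      rw [Int.cast_natCast]
      exact Rat.num_div_den r
    have h2 := Pool.Agent.X61.CU.spart_shift S hS r.num r.den hq (by
      intro w hw
      rw [hrr]
      exact hr w hw) ε hε
    have h1 := of_log (f := fun x => smoothPart S (r.den * x - r.num))
      (fun x => Pool.Agent.X61.CU.part_pos hS _) (fun _ => False) ε (by
        refine h2.subset ?_
        rintro Z ⟨hZ, hlt⟩
        refine ⟨hZ, lt_of_lt_of_eq hlt ?_⟩
        refine Finset.sum_congr rfl fun x _ => ?_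
        rw [if_neg not_false]
        rfl)
    refine h1.subset ?_
    rintro Z ⟨hZ, hlt⟩
    refine ⟨hZ, lt_of_lt_of_eq hlt ?_⟩
    rw [Finset.filter_true_of_mem fun _ _ => not_false]

end Pool.Agent.Results.MP_edb5be_nt.SmoothPart
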