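import Mathlib
import Pool.Agent.X61.CU.SumU

set_option autoImplicit false

/-!
# No large cycle of the 3x+1 map consists of sums of few smooth numbers

Let `S` be a finite set of primes, `C` a finite set of rational numbers and `k` a natural number. Every
trajectory of the `3x+1` map on the integers all of whose terms are of the form
`c 1 n 1 + ... + c k n k`, with `c i ∈ C` and positive integers `n i` composed of primes in `S`, has a
term in a finite set which depends on `S`, `C`, `k` only. So only finitely many cycles consist of such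
numbers, and no trajectory which tends to infinity consists of such numbers from some point on.
-/

namespace Pool.Agent.Results.MP_edb5be_nt.SumsOfSmoothNumbers

open Filter

/-- The 3x+1 map on the integers. -/
def T (x : ℤ) : ℤ := if x % 2 = 0 then x / 2 else (3 * x + 1) / 2

/-- `Z` is a cycle of `T`. -/
def IsCycle (Z : Finset ℤ) : Prop :=
  ∃ (x : ℤ) (p : ℕ), 1 ≤ p ∧ T^[p] x = x ∧ Z = (Finset.range p).image fun i => T^[i] x

/-- The integers of the form `c 1 n 1 + ... + c k n k`, where the `c i` are in `C` and the `n i` are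
positive integers without prime factors outside `S`. -/
def Sums (S : Finset ℕ) (C : Finset ℚ) (k : ℕ) : Set ℤ :=
  {x | ∃ (c : Fin k → ℚ) (n : Fin k → ℕ), (∀ i, c i ∈ C) ∧
    (∀ i, n i ≠ 0 ∧ ∀ p : ℕ, p.Prime → p ∣ n i → p ∈ S) ∧ (x : ℚ) = ∑ i, c i * n i}

open Pool.Agent.X61.CU (Rep small_term)
open Pool.Agent.TH419.WI (Smooth)

/-- the primes of `S`, and `2`, `3` -/
def primes (S : Finset ℕ) : Finset ℕ := insert 2 (insert 3 (S.filter Nat.Prime))

theorem primes_prime (S : Finset ℕ) : ∀ p ∈ primes S, p.Prime := by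
  intro p hp
  simp only [primes, Finset.mem_insert, Finset.mem_filter] at hp
  rcases hp with rfl | rfl | h
  · exact Nat.prime_two
  · exact Nat.prime_three
  · exact h.2

theorem smooth {S : Finset ℕ} {n : ℕ} (h0 : n ≠ 0) (h : ∀ p : ℕ, p.Prime → p ∣ n → p ∈ S) :
    Smooth (primes S) n := by
  refine ⟨h0, fun p hp => ?_⟩
  have h1 := Nat.prime_of_mem_primeFactors hp
  simp only [primes, Finset.mem_insert, Finset.mem_filter]
  exact Or.inr (Or.inr ⟨h p h1 (Nat.dvd_of_mem_primeFactors hp), h1⟩)

/-- a common denominator of the coefficients -/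
def den (C : Finset ℚ) : ℕ := ∏ c ∈ C, c.den

/-- a bound for the integral coefficients -/
def bound (C : Finset ℚ) : ℕ := den C + ∑ c ∈ C, c.num.natAbs * den C

theorem den_pos (C : Finset ℚ) : 1 ≤ den C := by
  have h : 0 < den C := Finset.prod_pos fun c _ => Rat.den_pos c
  exact h

theorem rep_of_mem {S : Finset ℕ} {C : Finset ℚ} {k : ℕ} {x : ℤ} (h : x ∈ Sums S C k) :
    Rep (primes S) k (bound C) (den C) x := by
  obtain ⟨c, n, hc, hn, hx⟩ := h
  have hd : ∀ i, (c i).den ∣ den C := fun i => Finset.dvd_prod_of_mem _ (hc i)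
  refine ⟨n, fun i => (c i).num * ((den C / (c i).den : ℕ) : ℤ), fun i => smooth (hn i).1 (hn i).2,
    fun i => ?_, ?_⟩
  · have h1 : |(c i).num * ((den C / (c i).den : ℕ) : ℤ)| =
        (((c i).num.natAbs * (den C / (c i).den) : ℕ) : ℤ) := by
      rw [abs_mul, Int.abs_eq_natAbs, abs_of_nonneg (Int.natCast_nonneg _)]
      push_cast
      rfl
    rw [h1]
    have h2 : (c i).num.natAbs * (den C / (c i).den) ≤ (c i).num.natAbs * den C :=
      Nat.mul_le_mul_left _ (Nat.div_le_self _ _)
    have h3 : (c i).num.natAbs * den C ≤ ∑ c ∈ C, c.num.natAbs * den C :=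
      Finset.single_le_sum (f := fun c : ℚ => c.num.natAbs * den C) (fun _ _ => Nat.zero_le _) (hc i)
    have h4 : ∑ c ∈ C, c.num.natAbs * den C ≤ bound C := Nat.le_add_left _ _
    exact_mod_cast h2.trans (h3.trans h4)
  · have hcast : (((den C : ℕ) : ℤ) * x : ℚ) =
        ∑ i, (n i : ℚ) * ((c i).num * ((den C / (c i).den : ℕ) : ℚ)) := by
      push_cast
      rw [hx, Finset.mul_sum]
      refine Finset.sum_congr rfl fun i _ => ?_
      have h1 : ((den C / (c i).den : ℕ) : ℚ) = (den C : ℚ) / (c i).den := by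
        rw [Nat.cast_div (hd i)]
        exact_mod_cast (c i).den_nz
      have h2 : ((c i).den : ℚ) ≠ 0 := by exact_mod_cast (c i).den_nz
      have h3 : c i = (c i).num / (c i).den := (Rat.num_div_den (c i)).symm
      rw [h1]
      conv_lhs => rw [h3]
      field_simp
    have h5 : ((den C : ℕ) : ℤ) * x =
        ∑ i, (n i : ℤ) * ((c i).num * ((den C / (c i).den : ℕ) : ℤ)) := by
      have h6 : ((((den C : ℕ) : ℤ) * x : ℤ) : ℚ) =
          ((∑ i, (n i : ℤ) * ((c i).num * ((den C / (c i).den : ℕ) : ℤ)) : ℤ) : ℚ) := by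
        push_cast
        push_cast at hcast
        exact hcast
      exact_mod_cast h6
    exact h5

/-- Let `S` be a finite set of primes, `C` a finite set of rational numbers, and `k` a natural number.
(1) There is `X` such that every trajectory of the `3x+1` map on the integers which is contained in
`Sums S C k` has a term of absolute value at most `X`.
(2) Only finitely many cycles are contained in `Sums S C k`.
(3) Every trajectory which tends to infinity in absolute value has infinitely many terms outside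
`Sums S C k`. -/
theorem result (S : Finset ℕ) (C : Finset ℚ) (k : ℕ) :
    (∃ X : ℕ, ∀ x : ℤ, (∀ j : ℕ, T^[j] x ∈ Sums S C k) → ∃ j : ℕ, |T^[j] x| ≤ X) ∧
    {Z : Finset ℤ | IsCycle Z ∧ ∀ x ∈ Z, x ∈ Sums S C k}.Finite ∧
    ∀ x : ℤ, Tendsto (fun j : ℕ => |T^[j] x|) atTop atTop → ∃ᶠ j in atTop, T^[j] x ∉ Sums S C k := by
  have h1 : ∃ X : ℕ, ∀ x : ℤ, (∀ j : ℕ, T^[j] x ∈ Sums S C k) → ∃ j : ℕ, |T^[j] x| ≤ X := by
    obtain ⟨X, hX⟩ := small_term (primes S) (primes_prime S) (by simp [primes]) (by simp [primes]) k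
      (bound C) (den C) (den_pos C) (Nat.le_add_right _ _)
    exact ⟨X, fun x hx => hX x fun j => rep_of_mem (hx j)⟩
  obtain ⟨X, hX⟩ := h1
  refine ⟨⟨X, hX⟩, ?_, ?_⟩
  · refine (Pool.Agent.X61.CU.finite_small X).subset ?_
    rintro Z ⟨hZ, hmem⟩
    have hZ' : Pool.Agent.X61.CU.IsCycle Z := hZ
    refine ⟨hZ', ?_⟩
    obtain ⟨x, hx, -⟩ := hZ'.normal
    obtain ⟨j, hj⟩ := hX x fun j => hmem _ (hZ'.iter_mem hx j)
    exact ⟨_, hZ'.iter_mem hx j, hj⟩
  · intro x hx
    rw [Filter.frequently_atTop]
    intro j0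
    by_contra hcon
    push Not at hcon
    obtain ⟨j1, hj1⟩ := Filter.eventually_atTop.1 (hx.eventually_gt_atTop (X : ℤ))
    obtain ⟨j, hj⟩ := hX (T^[max j0 j1] x) fun j => by
      rw [← Function.iterate_add_apply]
      exact hcon _ ((le_max_left j0 j1).trans (Nat.le_add_left _ _))
    rw [← Function.iterate_add_apply] at hj
    exact absurd (hj1 _ ((le_max_right j0 j1).trans (Nat.le_add_left _ _))) (not_lt.2 hj)

end Pool.Agent.Results.MP_edb5be_nt.SumsOfSmoothNumbers
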